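import Pool.Agent.TH938.CC.Later

set_option autoImplicit false

namespace Pool.Agent.TH317.CC

open Finset

variable {D V Λ R : Type*} [LinearOrder Λ] [CommRing R] [Inhabited D]

theorem K_face (G : Rib D V Λ) (Fc : Set (List D)) (Rl : ℕ → List D → Prop)
    (hL : Lev G Fc Rl) (X : List D → R) (hX : Cls G Fc Rl X)
    (hspur : ∀ (n : ℕ) (u v : List D) (a e : D), e ≠ a → e ≠ G.inv a →
      Rl (4 * n + 4) (u ++ [a, G.inv a] ++ (v ++ [e])) →
      K G.ipos G.pos X n (u ++ [a, G.inv a] ++ (v ++ [e]))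
        = K G.ipos G.pos X n (u ++ (v ++ [e])))
    (n : ℕ) (u v f : List D) (e : D) (hf : f ∈ Fc) (hF : IsFace G f)
    (he : ∀ b ∈ f, e ≠ b ∧ e ≠ G.inv b)
    (hR : Rl (4 * n + 8) (u ++ f ++ (v ++ [e]))) :
    K G.ipos G.pos X n (u ++ f ++ (v ++ [e])) = K G.ipos G.pos X n (u ++ (v ++ [e])) := by
  have form : ∀ w : List D, w.getLast? = some e → ∃ w0, w = w0 ++ [e] := by
    intro w hw
    exact ⟨w.dropLast, (List.dropLast_append_getLast? e hw).symm⟩
  induction n generalizing u v with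
  | zero =>
    have h1 := H938.levmono hL 1 _ (by omega) _ hR
    exact hX.del _ _ (Del.face u f (v ++ [e]) hf) (hL.mono _ _ h1)
      (hL.del _ _ _ h1 (Del.face u f (v ++ [e]) hf))
  | succ n ih =>
    have hd : H938.Dat G Fc Rl X (K G.ipos G.pos X n) (4 * n) e f u (v ++ [e]) v.length := by
      refine ⟨hL, hX, hf, hF, he, ?_, ?_, by simp, by simp, ?_⟩
      · intro u' v' a hv' h1 h2 h3
        obtain ⟨v0, rfl⟩ := form v' hv'
        exact hspur n u' v0 a e h1 h2 h3
      · intro u' v' hv' h3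
        obtain ⟨v0, rfl⟩ := form v' hv'
        exact ih u' v0 h3
      · exact H938.levmono hL _ _ (by omega) _ hR
    exact hd.step

end Pool.Agent.TH317.CC
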