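import Pool.Agent.TH938.CC.Lists

set_option autoImplicit false
set_option linter.unusedVariables false
set_option linter.unusedSectionVars false
set_option linter.unusedSimpArgs false

namespace Pool.Agent.TH317.CC.H938

open Finset Pool.Agent.TH317.CC

variable {D V Λ R : Type*} [LinearOrder Λ] [CommRing R] [Inhabited D]

section prv
variable (u f v : List D)

theorem prv_zero (hv : 0 < v.length) : prv (u ++ f ++ v) 0 = v.getD (v.length - 1) default := by
  unfold prv
  rw [if_pos rfl]
  have : (u ++ f ++ v).length - 1 = u.length + f.length + (v.length - 1) := by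
    simp only [List.length_append]; omega
  rw [this, getD_v]

theorem prv_zero' (hv : 0 < v.length) : prv (u ++ v) 0 = v.getD (v.length - 1) default := by
  unfold prv
  rw [if_pos rfl]
  have : (u ++ v).length - 1 = u.length + (v.length - 1) := by
    simp only [List.length_append]; omega
  rw [this, getD_v']

theorem prv_succ (w : List D) (k : ℕ) : prv w (k + 1) = w.getD k default := by
  unfold prv; simp

theorem prv_u (hv : 0 < v.length) (k : ℕ) (hk : k ≤ u.length) :
    prv (u ++ f ++ v) k = prv (u ++ v) k := by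
  cases k with
  | zero => rw [prv_zero u f v hv, prv_zero' u v hv]
  | succ k => rw [prv_succ, prv_succ, getD_u u f v k (by omega), getD_u' u v k (by omega)]

theorem prv_f (r : ℕ) (hr : r < f.length) :
    prv (u ++ f ++ v) (u.length + (r + 1)) = f.getD r default := by
  rw [← add_assoc, prv_succ, getD_f u f v r hr]

theorem prv_v (t : ℕ) :
    prv (u ++ f ++ v) (u.length + f.length + (t + 1)) = v.getD t default := by
  rw [← add_assoc, prv_succ, getD_v u f v t]

theorem prv_v' (t : ℕ) :
    prv (u ++ v) (u.length + (t + 1)) = v.getD t default := by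
  rw [← add_assoc, prv_succ, getD_v' u v t]

end prv

section cfs
variable (G : Rib D V Λ) (u f v : List D)

theorem pass_u (hv : 0 < v.length) (k : ℕ) (hk : k < u.length) :
    pass G.ipos G.pos (u ++ f ++ v) k = pass G.ipos G.pos (u ++ v) k := by
  rw [pass_eq, pass_eq, prv_u u f v hv k hk.le, getD_u u f v k hk, getD_u' u v k hk]

theorem pass_v (t : ℕ) :
    pass G.ipos G.pos (u ++ f ++ v) (u.length + f.length + (t + 1)) =
      pass G.ipos G.pos (u ++ v) (u.length + (t + 1)) := by
  rw [pass_eq, pass_eq, prv_v, prv_v', getD_v, getD_v']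

theorem cf_uu (hv : 0 < v.length) (j k : ℕ) (hj : j < u.length) (hk : k < u.length) :
    cf G.ipos G.pos (u ++ f ++ v) j k = cf G.ipos G.pos (u ++ v) j k := by
  unfold cf
  rw [pass_u G u f v hv j hj, pass_u G u f v hv k hk]

theorem cf_uv (hv : 0 < v.length) (j t : ℕ) (hj : j < u.length) :
    cf G.ipos G.pos (u ++ f ++ v) j (u.length + f.length + (t + 1)) =
      cf G.ipos G.pos (u ++ v) j (u.length + (t + 1)) := by
  unfold cf
  rw [pass_u G u f v hv j hj, pass_v G u f v t]

theorem cf_vv (s t : ℕ) :
    cf G.ipos G.pos (u ++ f ++ v) (u.length + f.length + (s + 1))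
        (u.length + f.length + (t + 1)) =
      cf G.ipos G.pos (u ++ v) (u.length + (s + 1)) (u.length + (t + 1)) := by
  unfold cf
  rw [pass_v G u f v s, pass_v G u f v t]
  rw [if_neg (by omega), if_neg (by omega)]

end cfs

/-- the term of a cut -/
def T (G : Rib D V Λ) (X g : List D → R) (w : List D) (j k : ℕ) : R :=
  (cf G.ipos G.pos w j k : R) * X (leaf w j k) * g (rest w j k)

theorem sum_split (F : ℕ → ℕ → R) (p q m : ℕ) :
    ∑ k ∈ range (p + (q + 1 + m)), ∑ j ∈ range k, F j k =
      (∑ k ∈ range p, ∑ j ∈ range k, F j k)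
      + ((∑ j ∈ range p, ∑ r ∈ range (q + 1), F j (p + r))
        + (∑ r ∈ range (q + 1), ∑ r' ∈ range r, F (p + r') (p + r)))
      + ((∑ t ∈ range m, ∑ j ∈ range p, F j (p + (q + 1 + t)))
        + (∑ t ∈ range m, ∑ r ∈ range (q + 1), F (p + r) (p + (q + 1 + t)))
        + (∑ t ∈ range m, ∑ s ∈ range t, F (p + (q + 1 + s)) (p + (q + 1 + t)))) := by
  rw [sum_range_add, sum_range_add, ← add_assoc]
  congr 1
  · congr 1
    rw [sum_comm (s := range p), ← sum_add_distrib]
    apply sum_congr rfl
    intro r hr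
    rw [sum_range_add]
  · rw [← sum_add_distrib, ← sum_add_distrib]
    apply sum_congr rfl
    intro t ht
    rw [sum_range_add, sum_range_add]
    exact (add_assoc _ _ _).symm

theorem L_ins (G : Rib D V Λ) (X g : List D → R) (u f v : List D) (m : ℕ)
    (hv : v.length = m + 1)
    (HA : ∀ k < u.length, ∀ j < k, T G X g (u ++ f ++ v) j k = T G X g (u ++ v) j k)
    (HC : ∀ r ≤ f.length, ∀ r' < r, T G X g (u ++ f ++ v) (u.length + r') (u.length + r) = 0)
    (HB : ∑ j ∈ range u.length, ∑ r ∈ range (f.length + 1),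
        T G X g (u ++ f ++ v) j (u.length + r) =
      ∑ j ∈ range u.length, T G X g (u ++ v) j (u.length))
    (HA2 : ∀ t < m, ∀ j < u.length,
      T G X g (u ++ f ++ v) j (u.length + f.length + (t + 1)) =
        T G X g (u ++ v) j (u.length + (t + 1)))
    (HD : ∑ t ∈ range m, ∑ r ∈ range (f.length + 1),
        T G X g (u ++ f ++ v) (u.length + r) (u.length + f.length + (t + 1)) =
      ∑ t ∈ range m, T G X g (u ++ v) (u.length) (u.length + (t + 1)))
    (HA1 : ∀ t < m, ∀ s < t,
      T G X g (u ++ f ++ v) (u.length + f.length + (s + 1)) (u.length + f.length + (t + 1)) =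
        T G X g (u ++ v) (u.length + (s + 1)) (u.length + (t + 1))) :
    L G.ipos G.pos X g (u ++ f ++ v) = L G.ipos G.pos X g (u ++ v) := by
  have e1 : (u ++ f ++ v).length = u.length + (f.length + 1 + m) := by
    simp only [List.length_append]; omega
  have e2 : (u ++ v).length = u.length + (0 + 1 + m) := by
    simp only [List.length_append]; omega
  have h1 := sum_split (T G X g (u ++ f ++ v)) u.length f.length m
  have h2 := sum_split (T G X g (u ++ v)) u.length 0 m
  unfold L
  rw [e1, e2]
  change (∑ k ∈ range (u.length + (f.length + 1 + m)), ∑ j ∈ range k, T G X g (u ++ f ++ v) j k)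
    = ∑ k ∈ range (u.length + (0 + 1 + m)), ∑ j ∈ range k, T G X g (u ++ v) j k
  rw [h1, h2]
  have e3 : ∀ t, u.length + (f.length + 1 + t) = u.length + f.length + (t + 1) := by
    intro t; omega
  have e4 : ∀ t, u.length + (0 + 1 + t) = u.length + (t + 1) := by
    intro t; omega
  simp only [e3, e4, zero_add, sum_range_one, range_zero, sum_empty, add_zero]
  have c1 : (∑ k ∈ range u.length, ∑ j ∈ range k, T G X g (u ++ f ++ v) j k) =
      ∑ k ∈ range u.length, ∑ j ∈ range k, T G X g (u ++ v) j k :=
    sum_congr rfl fun k hk => sum_congr rfl fun j hj =>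
      HA k (mem_range.mp hk) j (mem_range.mp hj)
  have c2 : (∑ r ∈ range (f.length + 1), ∑ r' ∈ range r,
      T G X g (u ++ f ++ v) (u.length + r') (u.length + r)) = 0 :=
    sum_eq_zero fun r hr => sum_eq_zero fun r' hr' =>
      HC r (by have := mem_range.mp hr; omega) r' (mem_range.mp hr')
  have c3 : (∑ t ∈ range m, ∑ j ∈ range u.length,
      T G X g (u ++ f ++ v) j (u.length + f.length + (t + 1))) =
      ∑ t ∈ range m, ∑ j ∈ range u.length, T G X g (u ++ v) j (u.length + (t + 1)) :=
    sum_congr rfl fun t ht => sum_congr rfl fun j hj =>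
      HA2 t (mem_range.mp ht) j (mem_range.mp hj)
  have c4 : (∑ t ∈ range m, ∑ s ∈ range t,
      T G X g (u ++ f ++ v) (u.length + f.length + (s + 1)) (u.length + f.length + (t + 1))) =
      ∑ t ∈ range m, ∑ s ∈ range t,
        T G X g (u ++ v) (u.length + (s + 1)) (u.length + (t + 1)) :=
    sum_congr rfl fun t ht => sum_congr rfl fun s hs =>
      HA1 t (mem_range.mp ht) s (mem_range.mp hs)
  rw [c1, c2, HB, c3, HD, c4]
  simp

/-- telescoping, earlier passes -/
theorem tele_b (p : ℕ) (x y : ℕ → R) (h0 : x 0 = 0) (h1 : ∀ j, j + 1 < p → x (j + 1) = y j)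
    (h2 : 0 < p → y (p - 1) = 0) : ∑ j ∈ range p, (x j - y j) = 0 := by
  cases p with
  | zero => simp
  | succ p =>
    rw [sum_sub_distrib, sum_range_succ', sum_range_succ y p, h0]
    have := h2 (Nat.succ_pos p)
    simp only [Nat.add_sub_cancel] at this
    rw [this]
    have : ∑ k ∈ range p, x (k + 1) = ∑ k ∈ range p, y k :=
      sum_congr rfl fun j hj => h1 j (by have := mem_range.mp hj; omega)
    rw [this]; ring

/-- telescoping, later passes -/
theorem tele_d (m : ℕ) (x y : ℕ → R) (h0 : 0 < m → y 0 = 0)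
    (h1 : ∀ t, 1 ≤ t → t < m → x t = y t)
    (h2 : 0 < m → x m = 0) : ∑ t ∈ range m, (x (t + 1) - y t) = 0 := by
  cases m with
  | zero => simp
  | succ m =>
    rw [sum_sub_distrib, sum_range_succ, sum_range_succ' y m, h0 (Nat.succ_pos m),
      h2 (Nat.succ_pos m)]
    have : ∑ k ∈ range m, x (k + 1) = ∑ k ∈ range m, y (k + 1) :=
      sum_congr rfl fun j hj => h1 (j + 1) (by omega) (by have := mem_range.mp hj; omega)
    rw [this]; ring

end Pool.Agent.TH317.CC.H938
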