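import Pool.Agent.TH317.CC.Alg

set_option autoImplicit false
set_option linter.unusedVariables false
set_option linter.unusedSectionVars false

namespace Pool.Agent.TH317.CC.H938

open Finset Pool.Agent.TH317.CC

variable {D V Λ R : Type*} [LinearOrder Λ] [CommRing R] [Inhabited D]

/-- previous letter -/
def prv (w : List D) (k : ℕ) : D := w.getD (if k = 0 then w.length - 1 else k - 1) default

theorem pass_eq (G : Rib D V Λ) (w : List D) (k : ℕ) :
    pass G.ipos G.pos w k = (G.pos (G.inv (prv w k)), G.pos (w.getD k default)) := rfl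

theorem walk_append (G : Rib D V Λ) : ∀ (a b : List D) (v v' : V),
    Walk G v v' (a ++ b) ↔ ∃ m, Walk G v m a ∧ Walk G m v' b
  | [], b, v, v' => by simp [Walk]
  | d :: a, b, v, v' => by
      simp only [List.cons_append, Walk, walk_append G a b]
      constructor
      · rintro ⟨h, m, h1, h2⟩; exact ⟨m, ⟨h, h1⟩, h2⟩
      · rintro ⟨m, ⟨h, h1⟩, h2⟩; exact ⟨h, m, h1, h2⟩

theorem walk_adj (G : Rib D V Λ) : ∀ (w : List D) (v v' : V), Walk G v v' w → ∀ k,
    k + 1 < w.length → G.hd (w.getD k default) = G.tl (w.getD (k + 1) default)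
  | [], v, v', h, k, hk => by simp at hk
  | [d], v, v', h, k, hk => by simp at hk
  | d :: d' :: l, v, v', h, 0, hk => by
      obtain ⟨h1, h2, h3⟩ := h
      simp only [List.getD_cons_zero, List.getD_cons_succ]
      exact h2.symm
  | d :: d' :: l, v, v', h, k + 1, hk => by
      obtain ⟨h1, h2⟩ := h
      have := walk_adj G (d' :: l) _ _ h2 k (by simpa using hk)
      simpa only [List.getD_cons_succ] using this

theorem walk_last (G : Rib D V Λ) : ∀ (w : List D) (v v' : V), Walk G v v' w → w ≠ [] →
    G.hd (w.getD (w.length - 1) default) = v'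
  | [], v, v', h, hk => by simp at hk
  | [d], v, v', h, hk => by
      obtain ⟨h1, h2⟩ := h
      simpa [Walk] using h2
  | d :: d' :: l, v, v', h, hk => by
      obtain ⟨h1, h2⟩ := h
      have := walk_last G (d' :: l) _ _ h2 (by simp)
      simpa using this

theorem cw_hd (G : Rib D V Λ) (w : List D) (h : CW G w) (k : ℕ) (hk : k < w.length) :
    G.hd (prv w k) = G.tl (w.getD k default) := by
  obtain ⟨v, hv⟩ := h
  unfold prv
  by_cases h0 : k = 0
  · subst h0
    rw [if_pos rfl, walk_last G w v v hv (by intro h; simp [h] at hk)]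
    cases w with
    | nil => simp at hk
    | cons d l => obtain ⟨h1, h2⟩ := hv; simpa using h1.symm
  · rw [if_neg h0]
    obtain ⟨k', rfl⟩ := Nat.exists_eq_succ_of_ne_zero h0
    simpa using walk_adj G w v v hv k' (by simpa using hk)

theorem block_le (G : Rib D V Λ) (a b c : D) (h : G.tl a = G.tl b) (h' : G.tl c ≠ G.tl a) :
    G.pos c ≤ G.pos a ↔ G.pos c ≤ G.pos b := by
  have e1 : G.pos c ≠ G.pos a := fun e => h' (by rw [G.pos_inj e])
  have e2 : G.pos c ≠ G.pos b := fun e => h' (by rw [h, G.pos_inj e])
  rw [le_iff_lt_or_eq, le_iff_lt_or_eq, G.block a b c h h']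
  simp [e1, e2]

theorem lk_zero (G : Rib D V Λ) (a b c d : D) (h1 : G.tl a = G.tl b) (h2 : G.tl c = G.tl d)
    (h3 : G.tl a ≠ G.tl c) : lk (G.pos a, G.pos b) (G.pos c, G.pos d) = 0 := by
  have e1 := G.block c d a h2 h3
  have e2 := block_le G c d b h2 (by rwa [← h1])
  unfold lk
  simp only [e1, e2]
  ring

theorem lkb_eq (a b : Λ × Λ) : lkb a b = lk a b + if a.1 = b.1 then 1 else 0 := by
  unfold lkb lk
  rcases lt_trichotomy a.1 b.1 with h | h | h
  · simp [h, h.le, h.ne]
  · simp [h]
  · simp [not_lt.mpr h.le, not_le.mpr h, h.ne']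

open Classical in
theorem cf_eq (G : Rib D V Λ) (w : List D) (j k : ℕ) :
    cf G.ipos G.pos w j k =
      lk (G.pos (G.inv (prv w j)), G.pos (w.getD j default))
        (G.pos (G.inv (prv w k)), G.pos (w.getD k default))
      + if j = 0 ∧ prv w 0 = prv w k then 1 else 0 := by
  unfold cf
  rw [pass_eq, pass_eq]
  by_cases h : j = 0
  · subst h
    rw [if_pos rfl, lkb_eq]
    congr 1
    have : G.pos (G.inv (prv w 0)) = G.pos (G.inv (prv w k)) ↔ prv w 0 = prv w k := by
      constructor
      · intro e
        have := G.pos_inj e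
        rw [← G.inv_inv (prv w 0), this, G.inv_inv]
      · intro e; rw [e]
    simp [this]
  · rw [if_neg h]; simp [h]

theorem cf_zero (G : Rib D V Λ) (w : List D) (h : CW G w) (j k : ℕ) (hj : j < w.length)
    (hk : k < w.length) (hne : G.tl (w.getD j default) ≠ G.tl (w.getD k default)) :
    cf G.ipos G.pos w j k = 0 := by
  have ej := cw_hd G w h j hj
  have ek := cw_hd G w h k hk
  unfold Rib.hd at ej ek
  rw [cf_eq, lk_zero G _ _ _ _ ej ek (by rw [ej, ek]; exact hne)]
  rw [if_neg]
  · rfl
  · rintro ⟨rfl, h2⟩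
    apply hne
    rw [← ej, ← ek, h2]

/-- additivity identities of `lk` -/
theorem lk_add_right (a : Λ × Λ) (x y s s' : Λ) :
    lk a (x, s) + lk a (s', y) - lk a (x, y) = lk a (s', s) := by
  unfold lk; ring

theorem lk_add_left (b : Λ × Λ) (x y s s' : Λ) :
    lk (x, s) b + lk (s', y) b - lk (x, y) b = lk (s', s) b := by
  unfold lk; ring

/-- the corner condition for the corner between the incoming dart `a` and the outgoing `b` -/
def Cor (G : Rib D V Λ) (a b : D) : Prop :=
  ∀ d, G.tl d = G.tl b →
      (G.pos b < G.pos (G.inv a) ∧ ¬ (G.pos b < G.pos d ∧ G.pos d < G.pos (G.inv a))) ∨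
      (G.pos (G.inv a) < G.pos b ∧ G.pos (G.inv a) ≤ G.pos d ∧ G.pos d ≤ G.pos b)

open Classical in
theorem corner_right (G : Rib D V Λ) (a b c d : D) (hab : G.hd a = G.tl b)
    (h : Cor G a b) (hcd : G.tl c = G.tl d) :
    lk (G.pos (G.inv a), G.pos b) (G.pos c, G.pos d) =
      (if d = b then 1 else 0) + (if d = G.inv a then 1 else 0)
        - (if c = b then 1 else 0) - (if c = G.inv a then 1 else 0) := by
  have hinj : ∀ x y : D, x = y ↔ G.pos x = G.pos y := fun x y => ⟨fun e => by rw [e], fun e => G.pos_inj e⟩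
  unfold Rib.hd at hab
  by_cases hv : G.tl c = G.tl b
  · have hc := h c hv
    have hd := h d (hcd ▸ hv)
    simp only [hinj]
    unfold lk
    simp only
    generalize G.pos (G.inv a) = s' at *
    generalize G.pos b = s at *
    generalize G.pos c = x at *
    generalize G.pos d = y at *
    rcases hc with ⟨h1, h2⟩ | ⟨h1, h2, h3⟩ <;> rcases hd with ⟨h4, h5⟩ | ⟨h4, h5, h6⟩
    · have hx : x < s ∨ x = s ∨ x = s' ∨ s' < x := by
        rcases lt_trichotomy x s with h | h | h
        · exact Or.inl h
        · exact Or.inr (Or.inl h)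
        · rcases lt_trichotomy x s' with h' | h' | h'
          · exact absurd ⟨h, h'⟩ h2
          · exact Or.inr (Or.inr (Or.inl h'))
          · exact Or.inr (Or.inr (Or.inr h'))
      have hy : y < s ∨ y = s ∨ y = s' ∨ s' < y := by
        rcases lt_trichotomy y s with h | h | h
        · exact Or.inl h
        · exact Or.inr (Or.inl h)
        · rcases lt_trichotomy y s' with h' | h' | h'
          · exact absurd ⟨h, h'⟩ h5
          · exact Or.inr (Or.inr (Or.inl h'))
          · exact Or.inr (Or.inr (Or.inr h'))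
      have key : ∀ z : Λ, (z < s ∨ z = s ∨ z = s' ∨ s' < z) →
          ((if s ≤ z then (1:ℤ) else 0) - (if s' < z then 1 else 0)) =
            (if z = s then 1 else 0) + (if z = s' then 1 else 0) := by
        intro z hz
        rcases hz with hz | hz | hz | hz
        · rw [if_neg (not_le.mpr hz), if_neg (not_lt.mpr (hz.trans h1).le), if_neg hz.ne,
            if_neg (hz.trans h1).ne]; rfl
        · subst hz
          rw [if_pos le_rfl, if_neg (not_lt.mpr h1.le), if_pos rfl, if_neg h1.ne]; rfl
        · subst hz
          rw [if_pos h1.le, if_neg (lt_irrefl _), if_neg h1.ne', if_pos rfl]; rfl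
        · rw [if_pos (h1.trans hz).le, if_pos hz, if_neg (h1.trans hz).ne', if_neg hz.ne']; rfl
      have kx := key x hx
      have ky := key y hy
      linear_combination ky - kx
    · exact absurd h4 (not_lt.mpr h1.le)
    · exact absurd h4 (not_lt.mpr h1.le)
    · have key : ∀ z : Λ, s' ≤ z → z ≤ s →
          ((if s ≤ z then (1:ℤ) else 0) - (if s' < z then 1 else 0)) =
            (if z = s then 1 else 0) + (if z = s' then 1 else 0) - 1 := by
        intro z hz1 hz2
        rcases eq_or_lt_of_le hz1 with e | hz1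
        · subst e
          rw [if_neg (not_le.mpr h1), if_neg (lt_irrefl _), if_neg h1.ne, if_pos rfl]; rfl
        · rcases eq_or_lt_of_le hz2 with e | hz2
          · subst e
            rw [if_pos le_rfl, if_pos hz1, if_pos rfl, if_neg hz1.ne']; rfl
          · rw [if_neg (not_le.mpr hz2), if_pos hz1, if_neg hz2.ne, if_neg hz1.ne']; rfl
      have kx := key x h2 h3
      have ky := key y h5 h6
      linear_combination ky - kx
  · rw [lk_zero G (G.inv a) b c d hab hcd (by rw [hab]; exact fun e => hv e.symm)]
    have e1 : d ≠ b := fun e => hv (by rw [hcd, e])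
    have e2 : d ≠ G.inv a := fun e => hv (by rw [hcd, e, hab])
    have e3 : c ≠ b := fun e => hv (by rw [e])
    have e4 : c ≠ G.inv a := fun e => hv (by rw [e, hab])
    simp [e1, e2, e3, e4]

open Classical in
theorem corner_left (G : Rib D V Λ) (a b c d : D) (hab : G.hd a = G.tl b)
    (h : Cor G a b) (hcd : G.tl c = G.tl d) :
    lk (G.pos c, G.pos d) (G.pos (G.inv a), G.pos b) =
      (if c = b then 1 else 0) - (if d = G.inv a then 1 else 0) := by
  have hinj : ∀ x y : D, x = y ↔ G.pos x = G.pos y := fun x y => ⟨fun e => by rw [e], fun e => G.pos_inj e⟩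
  unfold Rib.hd at hab
  by_cases hv : G.tl c = G.tl b
  · have hc := h c hv
    have hd := h d (hcd ▸ hv)
    simp only [hinj]
    unfold lk
    simp only
    generalize G.pos (G.inv a) = s' at *
    generalize G.pos b = s at *
    generalize G.pos c = x at *
    generalize G.pos d = y at *
    rcases hc with ⟨h1, h2⟩ | ⟨h1, h2, h3⟩ <;> rcases hd with ⟨h4, h5⟩ | ⟨h4, h5, h6⟩
    · have hx : x < s ∨ x = s ∨ x = s' ∨ s' < x := by
        rcases lt_trichotomy x s with h | h | h
        · exact Or.inl h
        · exact Or.inr (Or.inl h)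
        · rcases lt_trichotomy x s' with h' | h' | h'
          · exact absurd ⟨h, h'⟩ h2
          · exact Or.inr (Or.inr (Or.inl h'))
          · exact Or.inr (Or.inr (Or.inr h'))
      have hy : y < s ∨ y = s ∨ y = s' ∨ s' < y := by
        rcases lt_trichotomy y s with h | h | h
        · exact Or.inl h
        · exact Or.inr (Or.inl h)
        · rcases lt_trichotomy y s' with h' | h' | h'
          · exact absurd ⟨h, h'⟩ h5
          · exact Or.inr (Or.inr (Or.inl h'))
          · exact Or.inr (Or.inr (Or.inr h'))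
      have kx : ((if x < s then (1:ℤ) else 0) - (if x < s' then 1 else 0)) =
            - (if x = s then 1 else 0) := by
        rcases hx with hz | hz | hz | hz
        · rw [if_pos hz, if_pos (hz.trans h1), if_neg hz.ne]; rfl
        · subst hz
          rw [if_neg (lt_irrefl _), if_pos h1, if_pos rfl]; rfl
        · subst hz
          rw [if_neg (not_lt.mpr h1.le), if_neg (lt_irrefl _), if_neg h1.ne']; rfl
        · rw [if_neg (not_lt.mpr (h1.trans hz).le), if_neg (not_lt.mpr hz.le),
            if_neg (h1.trans hz).ne']; rfl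
      have ky : ((if y ≤ s then (1:ℤ) else 0) - (if y ≤ s' then 1 else 0)) =
            - (if y = s' then 1 else 0) := by
        rcases hy with hz | hz | hz | hz
        · rw [if_pos hz.le, if_pos (hz.trans h1).le, if_neg (hz.trans h1).ne]; rfl
        · subst hz
          rw [if_pos le_rfl, if_pos h1.le, if_neg h1.ne]; rfl
        · subst hz
          rw [if_neg (not_le.mpr h1), if_pos le_rfl, if_pos rfl]; rfl
        · rw [if_neg (not_le.mpr (h1.trans hz)), if_neg (not_le.mpr hz),
            if_neg hz.ne']; rfl
      linear_combination ky - kx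
    · exact absurd h4 (not_lt.mpr h1.le)
    · exact absurd h4 (not_lt.mpr h1.le)
    · have kx : ((if x < s then (1:ℤ) else 0) - (if x < s' then 1 else 0)) =
            1 - (if x = s then 1 else 0) := by
        rw [if_neg (not_lt.mpr h2)]
        rcases eq_or_lt_of_le h3 with e | h3
        · subst e; rw [if_neg (lt_irrefl _), if_pos rfl]; try rfl
        · rw [if_pos h3, if_neg h3.ne]; try rfl
      have ky : ((if y ≤ s then (1:ℤ) else 0) - (if y ≤ s' then 1 else 0)) =
            1 - (if y = s' then 1 else 0) := by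
        rw [if_pos h6]
        rcases eq_or_lt_of_le h5 with e | h5
        · subst e; rw [if_pos le_rfl, if_pos rfl]; try rfl
        · rw [if_neg (not_le.mpr h5), if_neg h5.ne']; try rfl
      linear_combination ky - kx
  · rw [lk_zero G c d (G.inv a) b hcd hab (by rw [hab]; exact hv)]
    have e2 : d ≠ G.inv a := fun e => hv (by rw [hcd, e, hab])
    have e3 : c ≠ b := fun e => hv (by rw [e])
    simp [e2, e3]

end Pool.Agent.TH317.CC.H938
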