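import Pool.Agent.TH938.CC.Split

set_option autoImplicit false
set_option linter.unusedVariables false
set_option linter.unusedSectionVars false
set_option linter.unusedSimpArgs false

namespace Pool.Agent.TH317.CC.H938

open Finset Pool.Agent.TH317.CC

variable {D V Λ R : Type*} [LinearOrder Λ] [CommRing R] [Inhabited D]

theorem two_cons : ∀ (l : List D) (h : 2 ≤ l.length),
    l = l[0]'(by omega) :: l[1]'(by omega) :: l.drop 2
  | [], h => by simp at h
  | [a], h => by simp at h
  | a :: b :: l, h => by simp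

theorem face_cor (G : Rib D V Λ) (f : List D) (hF : IsFace G f) (r : ℕ) (hr : r < f.length) :
    Cor G (f.getD r default) (f.getD ((r + 1) % f.length) default) := by
  have hlen := hF.len
  intro d hd
  refine hF.corner r (f.getD r default) (f.getD ((r+1)%f.length) default)
    ((f.rotate r).drop 2) ?_ d hd
  have h2 : (f.rotate r).length = f.length := by simp
  have e0 : (f.rotate r)[0]'(by omega) = f.getD r default := by
    rw [List.getElem_rotate, List.getD_eq_getElem _ _ hr]
    congr 1
    rw [zero_add, Nat.mod_eq_of_lt hr]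
  have e1 : (f.rotate r)[1]'(by omega) = f.getD ((r+1)%f.length) default := by
    rw [List.getElem_rotate, List.getD_eq_getElem _ _ (Nat.mod_lt _ (by omega))]
    congr 1
    rw [add_comm]
  rw [← e0, ← e1]
  exact two_cons _ (by omega)

/-- vertices of a face -/
def tV (G : Rib D V Λ) (f : List D) (r : ℕ) : V := G.tl (f.getD (r % f.length) default)

theorem tV_lt (G : Rib D V Λ) (f : List D) (r : ℕ) (hr : r < f.length) :
    tV G f r = G.tl (f.getD r default) := by
  unfold tV; rw [Nat.mod_eq_of_lt hr]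

theorem tV_len (G : Rib D V Λ) (f : List D) : tV G f f.length = tV G f 0 := by
  unfold tV; simp

theorem face_hd (G : Rib D V Λ) (f : List D) (hF : IsFace G f) (r : ℕ) (hr : r < f.length) :
    G.tl (G.inv (f.getD r default)) = tV G f (r + 1) := by
  have hlen := hF.len
  rcases Nat.lt_or_ge (r + 1) f.length with h | h
  · have := cw_hd G f hF.cw (r + 1) h
    rw [prv_succ] at this
    rw [tV_lt G f _ h]; exact this
  · have e : r + 1 = f.length := by omega
    rw [e, tV_len, tV_lt G f 0 (by omega)]
    have := cw_hd G f hF.cw 0 (by omega)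
    unfold prv at this
    rw [if_pos rfl] at this
    have e' : r = f.length - 1 := by omega
    rw [e']; exact this

theorem tV_inj (G : Rib D V Λ) (f : List D) (hF : IsFace G f) (r s : ℕ) (hr : r < f.length)
    (hs : s < f.length) (h : tV G f r = tV G f s) : r = s := by
  rw [tV_lt G f r hr, tV_lt G f s hs, List.getD_eq_getElem _ _ hr,
    List.getD_eq_getElem _ _ hs] at h
  have h1 : (f.map G.tl)[r]'(by simpa using hr) = (f.map G.tl)[s]'(by simpa using hs) := by
    simpa using h
  exact (hF.nodup.getElem_inj_iff).mp h1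

theorem levmono {G : Rib D V Λ} {Fc : Set (List D)} {Rl : ℕ → List D → Prop}
    (hL : Lev G Fc Rl) (n k : ℕ) (h : n ≤ k) (w : List D) (hw : Rl k w) : Rl n w := by
  induction k, h using Nat.le_induction with
  | base => exact hw
  | succ k hk ih => exact ih (hL.mono _ _ hw)

/-- the data of the induction step -/
structure Dat (G : Rib D V Λ) (Fc : Set (List D)) (Rl : ℕ → List D → Prop) (X g : List D → R)
    (n : ℕ) (e : D) (f u v : List D) (m : ℕ) : Prop where
  hL : Lev G Fc Rl
  hX : Cls G Fc Rl X
  hf : f ∈ Fc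
  hF : IsFace G f
  he : ∀ b ∈ f, e ≠ b ∧ e ≠ G.inv b
  hgs : ∀ (u v : List D) (a : D), v.getLast? = some e → e ≠ a → e ≠ G.inv a →
    Rl (n + 4) (u ++ [a, G.inv a] ++ v) → g (u ++ [a, G.inv a] ++ v) = g (u ++ v)
  hgf : ∀ (u v : List D), v.getLast? = some e → Rl (n + 8) (u ++ f ++ v) →
    g (u ++ f ++ v) = g (u ++ v)
  hv : v.getLast? = some e
  hm : v.length = m + 1
  hR : Rl (n + 12) (u ++ f ++ v)

namespace Dat

variable {G : Rib D V Λ} {Fc : Set (List D)} {Rl : ℕ → List D → Prop} {X g : List D → R}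
    {n : ℕ} {e : D} {f u v : List D} {m : ℕ}

theorem cw (h : Dat G Fc Rl X g n e f u v m) : CW G (u ++ f ++ v) := h.hL.cw _ _ h.hR

theorem len3 (h : Dat G Fc Rl X g n e f u v m) : 3 ≤ f.length := h.hF.len

theorem wlen (h : Dat G Fc Rl X g n e f u v m) :
    (u ++ f ++ v).length = u.length + f.length + (m + 1) := by
  simp only [List.length_append, h.hm]

theorem cw' (h : Dat G Fc Rl X g n e f u v m) : CW G (u ++ v) :=
  h.hL.cw _ _ (h.hL.del _ _ _ h.hR (Del.face u f v h.hf))

theorem getLast (h : Dat G Fc Rl X g n e f u v m) : v.getD m default = e := by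
  have h1 := h.hv
  rw [List.getLast?_eq_getElem?, h.hm] at h1
  simp only [Nat.add_sub_cancel] at h1
  rw [List.getD_eq_getElem?_getD, h1]; rfl

/-- tails in `w` -/
theorem tl_u (h : Dat G Fc Rl X g n e f u v m) (j : ℕ) (hj : j < u.length) :
    G.tl ((u ++ f ++ v).getD j default) = G.tl (u.getD j default) := by
  rw [getD_u u f v j hj]

theorem tl_v (h : Dat G Fc Rl X g n e f u v m) (t : ℕ) :
    G.tl ((u ++ f ++ v).getD (u.length + f.length + t) default) = G.tl (v.getD t default) := by
  rw [getD_v u f v t]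

theorem hprv (h : Dat G Fc Rl X g n e f u v m) (k : ℕ) (hk : k < (u ++ f ++ v).length) :
    G.tl (G.inv (prv (u ++ f ++ v) k)) = G.tl ((u ++ f ++ v).getD k default) :=
  cw_hd G _ h.cw k hk

theorem tl_v0 (h : Dat G Fc Rl X g n e f u v m) : G.tl (v.getD 0 default) = tV G f 0 := by
  have h3 := h.len3
  have h1 := h.hprv (u.length + ((f.length - 1) + 1)) (by rw [h.wlen]; omega)
  rw [prv_f u f v _ (by omega), face_hd G f h.hF _ (by omega)] at h1
  have e1 : u.length + ((f.length - 1) + 1) = u.length + f.length + 0 := by omega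
  rw [e1, getD_v] at h1
  rw [← h1]
  have e2 : f.length - 1 + 1 = f.length := by omega
  rw [e2, tV_len]

theorem tl_f (h : Dat G Fc Rl X g n e f u v m) (r : ℕ) (hr : r ≤ f.length) :
    G.tl ((u ++ f ++ v).getD (u.length + r) default) = tV G f r := by
  rcases Nat.lt_or_ge r f.length with h1 | h1
  · rw [getD_f u f v r h1, tV_lt G f r h1]
  · have e1 : r = f.length := by omega
    subst e1
    have := getD_v u f v 0
    rw [add_zero] at this
    rw [this, h.tl_v0, tV_len]

/-- head of a letter of `u` -/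
theorem hd_u (h : Dat G Fc Rl X g n e f u v m) (j : ℕ) (hj : j < u.length) :
    G.tl (G.inv (u.getD j default)) = G.tl ((u ++ f ++ v).getD (j + 1) default) := by
  have h1 := h.hprv (j + 1) (by rw [h.wlen]; omega)
  rw [prv_succ, getD_u u f v j hj] at h1
  exact h1

theorem hd_v (h : Dat G Fc Rl X g n e f u v m) (t : ℕ) (ht : t < m) :
    G.tl (G.inv (v.getD t default)) = G.tl (v.getD (t + 1) default) := by
  have h1 := h.hprv (u.length + f.length + (t + 1)) (by rw [h.wlen]; omega)
  rw [prv_v, getD_v] at h1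
  exact h1

theorem lleaf (h : Dat G Fc Rl X g n e f u v m) (j k : ℕ) (hjk : j < k)
    (hk : k < u.length + f.length + (m + 1))
    (ht : G.tl ((u ++ f ++ v).getD j default) = G.tl ((u ++ f ++ v).getD k default)) :
    Rl (n + 11) (leaf (u ++ f ++ v) j k) :=
  h.hL.cutl _ _ _ _ h.hR hjk (by rw [h.wlen]; exact hk) ht

theorem lrest (h : Dat G Fc Rl X g n e f u v m) (j k : ℕ) (hjk : j < k)
    (hk : k < u.length + f.length + (m + 1))
    (ht : G.tl ((u ++ f ++ v).getD j default) = G.tl ((u ++ f ++ v).getD k default)) :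
    Rl (n + 11) (rest (u ++ f ++ v) j k) :=
  h.hL.cutr _ _ _ _ h.hR hjk (by rw [h.wlen]; exact hk) ht

/-- `X` is invariant under deletion of a spur -/
theorem Xspur (h : Dat G Fc Rl X g n e f u v m) (a b : List D) (d : D)
    (hl : Rl 1 (a ++ [d, G.inv d] ++ b)) : X (a ++ [d, G.inv d] ++ b) = X (a ++ b) :=
  h.hX.del _ _ (Del.spur a d b) (h.hL.mono _ _ hl) (h.hL.del _ _ _ hl (Del.spur a d b))

theorem Xface (h : Dat G Fc Rl X g n e f u v m) (a b : List D)
    (hl : Rl 1 (a ++ f ++ b)) : X (a ++ f ++ b) = X (a ++ b) :=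
  h.hX.del _ _ (Del.face a f b h.hf) (h.hL.mono _ _ hl) (h.hL.del _ _ _ hl (Del.face a f b h.hf))

theorem T_zero (h : Dat G Fc Rl X g n e f u v m) (j k : ℕ)
    (hj : j < u.length + f.length + (m + 1)) (hk : k < u.length + f.length + (m + 1))
    (ht : G.tl ((u ++ f ++ v).getD j default) ≠ G.tl ((u ++ f ++ v).getD k default)) :
    cf G.ipos G.pos (u ++ f ++ v) j k = 0 :=
  cf_zero G _ h.cw j k (by rw [h.wlen]; exact hj) (by rw [h.wlen]; exact hk) ht

theorem last_drop (h : Dat G Fc Rl X g n e f u v m) (t : ℕ) (ht : t ≤ m) :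
    (v.drop t).getLast? = some e := by
  rw [List.getLast?_drop, if_neg (by rw [h.hm]; omega), h.hv]

theorem last_append (a : List D) {b : List D} (hb : b.getLast? = some e) :
    (a ++ b).getLast? = some e := by
  rw [List.getLast?_append, hb]; rfl

theorem HA (h : Dat G Fc Rl X g n e f u v m) (k : ℕ) (hk : k < u.length) (j : ℕ) (hj : j < k) :
    T G X g (u ++ f ++ v) j k = T G X g (u ++ v) j k := by
  have hvl : 0 < v.length := by rw [h.hm]; omega
  unfold T
  rw [← cf_uu G u f v hvl j k (by omega) hk]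
  by_cases ht : G.tl ((u ++ f ++ v).getD j default) = G.tl ((u ++ f ++ v).getD k default)
  · have hr := h.lrest j k hj (by omega) ht
    rw [leaf_uu u f v j k hk.le, leaf_uu' u v j k hk.le, rest_uu u f v j k hj.le hk.le,
      rest_uu' u v j k hj.le hk.le]
    rw [rest_uu u f v j k hj.le hk.le] at hr
    rw [h.hgf _ _ h.hv (levmono h.hL _ _ (by omega) _ hr)]
  · rw [h.T_zero j k (by omega) (by omega) ht]; simp

theorem HA1 (h : Dat G Fc Rl X g n e f u v m) (t : ℕ) (htm : t < m) (s : ℕ) (hs : s < t) :
    T G X g (u ++ f ++ v) (u.length + f.length + (s + 1)) (u.length + f.length + (t + 1)) =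
        T G X g (u ++ v) (u.length + (s + 1)) (u.length + (t + 1)) := by
  unfold T
  rw [← cf_vv G u f v s t]
  by_cases ht : G.tl ((u ++ f ++ v).getD (u.length + f.length + (s + 1)) default) =
      G.tl ((u ++ f ++ v).getD (u.length + f.length + (t + 1)) default)
  · have hr := h.lrest _ _ (by omega) (by omega) ht
    rw [leaf_vv, leaf_vv', rest_vv, rest_vv']
    rw [rest_vv] at hr
    rw [h.hgf _ _ (last_append _ (h.last_drop (t + 1) (by omega)))
      (levmono h.hL _ _ (by omega) _ hr)]
  · rw [h.T_zero _ _ (by omega) (by omega) ht]; simp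

theorem HA2 (h : Dat G Fc Rl X g n e f u v m) (t : ℕ) (htm : t < m) (j : ℕ)
    (hj : j < u.length) :
    T G X g (u ++ f ++ v) j (u.length + f.length + (t + 1)) =
        T G X g (u ++ v) j (u.length + (t + 1)) := by
  have hvl : 0 < v.length := by rw [h.hm]; omega
  unfold T
  rw [← cf_uv G u f v hvl j t hj]
  by_cases ht : G.tl ((u ++ f ++ v).getD j default) =
      G.tl ((u ++ f ++ v).getD (u.length + f.length + (t + 1)) default)
  · have hr := h.lleaf _ _ (by omega) (by omega) ht
    rw [leaf_uv _ _ _ _ _ hj.le, leaf_uv' _ _ _ _ hj.le, rest_uv _ _ _ _ _ hj.le,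
      rest_uv' _ _ _ _ hj.le]
    rw [leaf_uv _ _ _ _ _ hj.le] at hr
    rw [h.Xface _ _ (levmono h.hL _ _ (by omega) _ hr)]
  · rw [h.T_zero _ _ (by omega) (by omega) ht]; simp

theorem HC (h : Dat G Fc Rl X g n e f u v m) (r : ℕ) (hr : r ≤ f.length) (r' : ℕ)
    (hr' : r' < r) : T G X g (u ++ f ++ v) (u.length + r') (u.length + r) = 0 := by
  unfold T
  by_cases ht : G.tl ((u ++ f ++ v).getD (u.length + r') default) =
      G.tl ((u ++ f ++ v).getD (u.length + r) default)
  · have hl := h.lleaf _ _ (by omega) (by omega) ht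
    rw [h.tl_f r' (by omega), h.tl_f r hr] at ht
    have hrq : r = f.length ∧ r' = 0 := by
      rcases Nat.lt_or_ge r f.length with h1 | h1
      · have := tV_inj G f h.hF r' r (by omega) h1 ht
        omega
      · have e1 : r = f.length := by omega
        subst e1
        rw [tV_len] at ht
        have := tV_inj G f h.hF r' 0 (by omega) (by omega) ht
        exact ⟨rfl, this⟩
    obtain ⟨e1, e2⟩ := hrq
    subst e1 e2
    rw [leaf_ff _ _ _ _ _ le_rfl, List.drop_zero, List.take_length] at hl ⊢
    have := h.Xface [] [] (by simpa using levmono h.hL 1 _ (by omega) _ hl)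
    simp only [List.nil_append, List.append_nil] at this
    rw [this, h.hX.nil]; simp
  · rw [h.T_zero _ _ (by omega) (by omega) ht]; simp

end Dat

end Pool.Agent.TH317.CC.H938
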