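import Pool.Agent.TH938.CC.Dat

set_option autoImplicit false
set_option linter.unusedVariables false
set_option linter.unusedSectionVars false
set_option linter.unusedSimpArgs false

namespace Pool.Agent.TH317.CC.H938

open Finset Pool.Agent.TH317.CC

variable {D V Λ R : Type*} [LinearOrder Λ] [CommRing R] [Inhabited D]

/-- products of the earlier passes -/
def PP (X g : List D → R) (u f v : List D) (r j : ℕ) : R :=
  X (u.drop j ++ f.take r) * g (u.take j ++ f.drop r ++ v)

/-- products of the later passes -/
def QQ (X g : List D → R) (u f v : List D) (r t : ℕ) : R :=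
  X (f.drop r ++ v.take t) * g (u ++ f.take r ++ v.drop t)

theorem drop_getD (l : List D) (j : ℕ) (hj : j < l.length) :
    l.drop j = l.getD j default :: l.drop (j + 1) := by
  rw [List.drop_eq_getElem_cons hj, List.getD_eq_getElem _ _ hj]

theorem take_getD (l : List D) (j : ℕ) (hj : j < l.length) :
    l.take (j + 1) = l.take j ++ [l.getD j default] := by
  rw [List.take_add_one, List.getElem?_eq_getElem hj, List.getD_eq_getElem _ _ hj]; rfl

namespace Dat

variable {G : Rib D V Λ} {Fc : Set (List D)} {Rl : ℕ → List D → Prop} {X g : List D → R}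
    {n : ℕ} {e : D} {f u v : List D} {m : ℕ}

theorem prv0 (h : Dat G Fc Rl X g n e f u v m) : prv (u ++ f ++ v) 0 = e := by
  rw [prv_zero u f v (by rw [h.hm]; omega), h.hm, Nat.add_sub_cancel, h.getLast]

theorem ne_f (h : Dat G Fc Rl X g n e f u v m) (r : ℕ) (hr : r < f.length) :
    e ≠ f.getD r default ∧ e ≠ G.inv (f.getD r default) := by
  rw [List.getD_eq_getElem _ _ hr]
  exact h.he _ (List.getElem_mem hr)

/-- coefficient with a corner -/
def lkc (G : Rib D V Λ) (u f v : List D) (j r : ℕ) : ℤ :=
  lk (G.pos (G.inv (prv (u ++ f ++ v) j)), G.pos ((u ++ f ++ v).getD j default))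
    (G.pos (G.inv (f.getD r default)), G.pos (f.getD ((r + 1) % f.length) default))

theorem cf_corner (h : Dat G Fc Rl X g n e f u v m) (j r : ℕ) (hr : r + 1 < f.length) :
    cf G.ipos G.pos (u ++ f ++ v) j (u.length + (r + 1)) = lkc G u f v j r := by
  rw [cf_eq, prv_f u f v r (by omega), getD_f u f v (r + 1) hr, h.prv0]
  unfold lkc
  rw [Nat.mod_eq_of_lt hr, if_neg, add_zero]
  exact fun hh => (h.ne_f r (by omega)).1 hh.2

theorem cf_three (h : Dat G Fc Rl X g n e f u v m) (j : ℕ) (hj : j < u.length) :
    cf G.ipos G.pos (u ++ f ++ v) j u.length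
      + cf G.ipos G.pos (u ++ f ++ v) j (u.length + f.length)
      - cf G.ipos G.pos (u ++ v) j u.length = lkc G u f v j (f.length - 1) := by
  classical
  have h3 := h.len3
  have hvl : 0 < v.length := by rw [h.hm]; omega
  have e1 : f.length = (f.length - 1) + 1 := by omega
  have a1 : prv (u ++ f ++ v) (u.length + f.length) = f.getD (f.length - 1) default := by
    have := prv_f u f v (f.length - 1) (by omega)
    rwa [← e1] at this
  have a2 : (u ++ f ++ v).getD (u.length + f.length) default = v.getD 0 default := by
    have := getD_v u f v 0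
    rwa [add_zero] at this
  have a3 : (u ++ f ++ v).getD u.length default = f.getD 0 default := by
    have := getD_f u f v 0 (by omega)
    rwa [add_zero] at this
  have a4 : (u ++ v).getD u.length default = v.getD 0 default := by
    have := getD_v' u v 0
    rwa [add_zero] at this
  rw [cf_eq, cf_eq, cf_eq, a1, a2, a3, a4, ← prv_u u f v hvl u.length le_rfl,
    ← prv_u u f v hvl 0 (by omega), ← prv_u u f v hvl j hj.le, getD_u' u v j hj,
    getD_u u f v j hj, h.prv0]
  rw [if_neg (c := j = 0 ∧ e = f.getD (f.length - 1) default)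
    (fun hh => (h.ne_f _ (by omega)).1 hh.2)]
  unfold lkc
  rw [getD_u u f v j hj]
  have e2 : (f.length - 1 + 1) % f.length = 0 := by rw [← e1, Nat.mod_self]
  rw [e2]
  have := lk_add_right (G.pos (G.inv (prv (u ++ f ++ v) j)), G.pos (u.getD j default))
    (G.pos (G.inv (prv (u ++ f ++ v) u.length))) (G.pos (v.getD 0 default))
    (G.pos (f.getD 0 default)) (G.pos (G.inv (f.getD (f.length - 1) default)))
  rw [← this]
  ring

theorem lkc_zero (h : Dat G Fc Rl X g n e f u v m) (j : ℕ)
    (hj : j < u.length + f.length + (m + 1)) (r : ℕ) (hr : r < f.length)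
    (ht : G.tl ((u ++ f ++ v).getD j default) ≠ tV G f (r + 1)) : lkc G u f v j r = 0 := by
  unfold lkc
  have h1 := h.hprv j (by rw [h.wlen]; exact hj)
  have h2 := face_hd G f h.hF r hr
  apply lk_zero
  · exact h1
  · rw [h2]; rfl
  · rw [h1, h2]; exact ht

theorem P_V0 (h : Dat G Fc Rl X g n e f u v m) (j : ℕ) (hj : j < u.length)
    (ht : G.tl (u.getD j default) = tV G f 0) :
    X (u.drop j ++ f) = X (u.drop j) ∧ g (u.take j ++ f ++ v) = g (u.take j ++ v) := by
  have h3 := h.len3
  constructor
  · have hl := h.lleaf j (u.length + f.length) (by omega) (by omega)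
      (by rw [h.tl_u j hj, h.tl_f f.length le_rfl, tV_len, ht])
    rw [leaf_uf u f v j f.length hj.le le_rfl, List.take_length] at hl
    have := h.Xface (u.drop j) [] (by simpa using levmono h.hL 1 _ (by omega) _ hl)
    simpa using this
  · have hl := h.lrest j (u.length + 0) (by omega) (by omega)
      (by rw [h.tl_u j hj, h.tl_f 0 (by omega), ht])
    rw [rest_uf u f v j 0 hj.le (by omega), List.drop_zero] at hl
    exact h.hgf _ _ h.hv (levmono h.hL _ _ (by omega) _ hl)

theorem HB1 (h : Dat G Fc Rl X g n e f u v m) (j : ℕ) (hj : j < u.length) :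
    (∑ r ∈ range (f.length + 1), T G X g (u ++ f ++ v) j (u.length + r))
      - T G X g (u ++ v) j u.length =
    ∑ r ∈ range f.length, (lkc G u f v j r : R) * PP X g u f v (r + 1) j := by
  have h3 := h.len3
  obtain ⟨q, hq⟩ : ∃ q, f.length = q + 1 := ⟨f.length - 1, by omega⟩
  have hT : ∀ r ≤ f.length, T G X g (u ++ f ++ v) j (u.length + r) =
      (cf G.ipos G.pos (u ++ f ++ v) j (u.length + r) : R) * PP X g u f v r j := by
    intro r hr
    unfold T PP
    rw [leaf_uf u f v j r hj.le hr, rest_uf u f v j r hj.le hr, mul_assoc]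
  have e1 : ∑ r ∈ range (f.length + 1), T G X g (u ++ f ++ v) j (u.length + r) =
      (∑ r ∈ range q, (lkc G u f v j r : R) * PP X g u f v (r + 1) j)
      + T G X g (u ++ f ++ v) j (u.length + 0) + T G X g (u ++ f ++ v) j (u.length + f.length) := by
    rw [sum_range_succ]
    congr 1
    rw [hq, sum_range_succ']
    congr 1
    apply sum_congr rfl
    intro r hr
    have hr' := mem_range.mp hr
    rw [hT (r + 1) (by omega), h.cf_corner j r (by omega)]
  rw [e1, hq, sum_range_succ _ q, hT 0 (by omega), ← hq, hT f.length le_rfl]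
  have e2 : T G X g (u ++ v) j u.length =
      (cf G.ipos G.pos (u ++ v) j u.length : R) * (X (u.drop j) * g (u.take j ++ v)) := by
    unfold T
    have a := leaf_uv' u v j 0 hj.le
    have b := rest_uv' u v j 0 hj.le
    simp only [add_zero, List.take_zero, List.append_nil, List.drop_zero] at a b
    rw [a, b, mul_assoc]
  rw [e2]
  have e3 := h.cf_three j hj
  have e4 : f.length - 1 = q := by omega
  rw [e4] at e3
  by_cases ht : G.tl (u.getD j default) = tV G f 0
  · obtain ⟨p1, p2⟩ := h.P_V0 j hj ht
    have P0 : PP X g u f v 0 j = X (u.drop j) * g (u.take j ++ v) := by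
      unfold PP
      rw [List.take_zero, List.append_nil, List.drop_zero, p2]
    have Pq : PP X g u f v f.length j = X (u.drop j) * g (u.take j ++ v) := by
      unfold PP
      rw [List.take_length, List.drop_length, List.append_nil, p1]
    rw [P0, Pq, ← e3]
    push_cast
    rw [add_zero]
    ring
  · have z1 : cf G.ipos G.pos (u ++ f ++ v) j u.length = 0 := by
      apply h.T_zero j u.length (by omega) (by omega)
      rw [h.tl_u j hj]
      have := h.tl_f 0 (by omega)
      rw [add_zero] at this
      rw [this]; exact ht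
    have z2 : cf G.ipos G.pos (u ++ f ++ v) j (u.length + f.length) = 0 := by
      apply h.T_zero j _ (by omega) (by omega)
      rw [h.tl_u j hj, h.tl_f f.length le_rfl, tV_len]; exact ht
    have z3 : lkc G u f v j q = 0 := by
      apply h.lkc_zero j (by omega) q (by omega)
      rw [h.tl_u j hj, ← hq, tV_len]; exact ht
    have z4 : cf G.ipos G.pos (u ++ v) j u.length = 0 := by
      rw [z1, z2, z3] at e3; linarith
    rw [add_zero, z1, z2, z3, z4]
    simp

theorem H1 (h : Dat G Fc Rl X g n e f u v m) (j r : ℕ) (hj : j + 1 < u.length)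
    (hr : r < f.length) (hjr : u.getD j default = G.inv (f.getD r default)) :
    PP X g u f v r (j + 1) = PP X g u f v (r + 1) j := by
  have t1 : G.tl (u.getD j default) = tV G f (r + 1) := by
    rw [hjr, face_hd G f h.hF r hr]
  have t2 : G.tl (u.getD (j + 1) default) = tV G f r := by
    have := h.hd_u j (by omega)
    rw [h.tl_u (j + 1) hj] at this
    rw [← this, hjr, G.inv_inv, tV_lt G f r hr]
  have nef := h.ne_f r hr
  unfold PP
  congr 1
  · -- X part
    have hl := h.lleaf j (u.length + (r + 1)) (by omega) (by omega)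
      (by rw [h.tl_u j (by omega), h.tl_f (r + 1) (by omega), t1])
    rw [leaf_uf u f v j (r + 1) (by omega) (by omega)] at hl
    rw [drop_getD u j (by omega), hjr, take_getD f r hr, List.cons_append] at hl ⊢
    rw [h.hX.rot]
    have hl2 := h.hL.rot _ _ _ hl
    have e1 : u.drop (j + 1) ++ (f.take r ++ [f.getD r default]) ++ [G.inv (f.getD r default)]
        = (u.drop (j + 1) ++ f.take r) ++ [f.getD r default, G.inv (f.getD r default)] ++ [] := by
      simp
    rw [e1] at hl2 ⊢
    rw [h.Xspur _ _ _ (levmono h.hL _ _ (by omega) _ hl2), List.append_nil]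
  · -- g part
    have hl := h.lrest (j + 1) (u.length + r) (by omega) (by omega)
      (by rw [h.tl_u (j + 1) hj, h.tl_f r hr.le, t2])
    rw [rest_uf u f v (j + 1) r (by omega) hr.le] at hl
    have e1 : u.take (j + 1) ++ f.drop r ++ v =
        u.take j ++ [G.inv (f.getD r default), G.inv (G.inv (f.getD r default))]
          ++ (f.drop (r + 1) ++ v) := by
      rw [take_getD u j (by omega), hjr, drop_getD f r hr, G.inv_inv]; simp
    rw [e1] at hl ⊢
    rw [h.hgs _ _ _ (last_append _ h.hv) nef.2 (by rw [G.inv_inv]; exact nef.1)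
      (levmono h.hL _ _ (by omega) _ hl)]
    simp

theorem H3 (h : Dat G Fc Rl X g n e f u v m) (j r : ℕ) (hj : j + 1 = u.length)
    (hr : r < f.length) (hjr : u.getD j default = G.inv (f.getD r default)) :
    PP X g u f v (r + 1) j = 0 := by
  have h3 := h.len3
  have t1 : G.tl (u.getD j default) = tV G f (r + 1) := by
    rw [hjr, face_hd G f h.hF r hr]
  have t2 : tV G f r = tV G f 0 := by
    have := h.hd_u j (by omega)
    rw [hj, hjr, G.inv_inv, ← tV_lt G f r hr] at this
    rw [this]
    have := h.tl_f 0 (by omega)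
    rwa [add_zero] at this
  have r0 : r = 0 := tV_inj G f h.hF r 0 hr (by omega) t2
  subst r0
  unfold PP
  have hl := h.lleaf j (u.length + (0 + 1)) (by omega) (by omega)
      (by rw [h.tl_u j (by omega), h.tl_f (0 + 1) (by omega), t1])
  rw [leaf_uf u f v j (0 + 1) (by omega) (by omega)] at hl
  rw [drop_getD u j (by omega), hjr, take_getD f 0 hr] at hl ⊢
  have e1 : u.drop (j + 1) = [] := List.drop_of_length_le (by omega)
  have e2 : G.inv (f.getD 0 default) :: u.drop (j + 1) ++ (f.take 0 ++ [f.getD 0 default]) =
      [] ++ [G.inv (f.getD 0 default), G.inv (G.inv (f.getD 0 default))] ++ [] := by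
    rw [e1, G.inv_inv]; simp
  rw [e2] at hl ⊢
  rw [h.Xspur _ _ _ (levmono h.hL _ _ (by omega) _ hl), List.append_nil, h.hX.nil, zero_mul]

theorem PP_V0 (h : Dat G Fc Rl X g n e f u v m) (j : ℕ) (hj : j < u.length)
    (ht : G.tl (u.getD j default) = tV G f 0) :
    PP X g u f v f.length j = PP X g u f v 0 j := by
  obtain ⟨p1, p2⟩ := h.P_V0 j hj ht
  unfold PP
  rw [List.take_zero, List.append_nil, List.drop_zero, p2,
    List.take_length, List.drop_length, List.append_nil, p1]

theorem HB (h : Dat G Fc Rl X g n e f u v m) :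
    ∑ j ∈ range u.length, ∑ r ∈ range (f.length + 1),
        T G X g (u ++ f ++ v) j (u.length + r) =
      ∑ j ∈ range u.length, T G X g (u ++ v) j (u.length) := by
  classical
  have h3 := h.len3
  rw [← sub_eq_zero, ← sum_sub_distrib]
  set x : ℕ → R := fun j => ∑ r ∈ range f.length,
    (if G.inv (prv (u ++ f ++ v) j) = f.getD ((r + 1) % f.length) default then (1 : R) else 0)
      * PP X g u f v (r + 1) j with hx
  set y : ℕ → R := fun j => ∑ r ∈ range f.length,
    (if (u ++ f ++ v).getD j default = G.inv (f.getD r default) then (1 : R) else 0)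
      * PP X g u f v (r + 1) j with hy
  have e1 : ∀ j ∈ range u.length, (∑ r ∈ range (f.length + 1),
      T G X g (u ++ f ++ v) j (u.length + r)) - T G X g (u ++ v) j (u.length) = x j - y j := by
    intro j hj
    have hj' := mem_range.mp hj
    rw [h.HB1 j hj', hx, hy]
    simp only
    rw [← sum_sub_distrib]
    apply sum_congr rfl
    intro r hr
    have hr' := mem_range.mp hr
    unfold lkc
    rw [corner_left G (f.getD r default) (f.getD ((r + 1) % f.length) default)
      (G.inv (prv (u ++ f ++ v) j)) ((u ++ f ++ v).getD j default)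
      (face_hd G f h.hF r hr') (face_cor G f h.hF r hr') (h.hprv j (by rw [h.wlen]; omega))]
    push_cast
    ring
  rw [sum_congr rfl e1]
  apply tele_b
  · rw [hx]
    simp only
    apply sum_eq_zero
    intro r hr
    have hr' := mem_range.mp hr
    rw [h.prv0, if_neg, zero_mul]
    intro hh
    apply (h.ne_f ((r + 1) % f.length) (Nat.mod_lt _ (by omega))).2
    rw [← hh, G.inv_inv]
  · intro j hj
    obtain ⟨q, hq⟩ : ∃ q, f.length = q + 1 := ⟨f.length - 1, by omega⟩
    have ey : ∀ s < f.length, (if u.getD j default = G.inv (f.getD s default) then (1 : R) else 0)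
        * PP X g u f v (s + 1) j =
        (if G.inv (u.getD j default) = f.getD s default then (1 : R) else 0)
          * PP X g u f v s (j + 1) := by
      intro s hs
      by_cases hc : u.getD j default = G.inv (f.getD s default)
      · rw [if_pos hc, if_pos (by rw [hc, G.inv_inv]), h.H1 j s hj hs hc]
      · rw [if_neg hc, if_neg, zero_mul, zero_mul]
        intro hh
        apply hc
        rw [← hh, G.inv_inv]
    rw [hx, hy]
    simp only
    rw [prv_succ, getD_u u f v j (by omega)]
    have ey2 : ∑ r ∈ range f.length,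
        (if u.getD j default = G.inv (f.getD r default) then (1 : R) else 0)
          * PP X g u f v (r + 1) j =
        ∑ r ∈ range f.length, (if G.inv (u.getD j default) = f.getD r default then (1 : R) else 0)
          * PP X g u f v r (j + 1) := sum_congr rfl fun s hs => ey s (mem_range.mp hs)
    rw [ey2, hq, sum_range_succ, sum_range_succ' _ q, ← hq]
    congr 1
    · apply sum_congr rfl
      intro r hr
      have hr' := mem_range.mp hr
      rw [Nat.mod_eq_of_lt (by omega)]
    · rw [Nat.mod_self]
      by_cases hc : G.inv (u.getD j default) = f.getD 0 default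
      · rw [h.PP_V0 (j + 1) hj]
        have := h.hd_u j (by omega)
        rw [h.tl_u (j + 1) hj] at this
        rw [← this, hc, tV_lt G f 0 (by omega)]
      · rw [if_neg hc, zero_mul, zero_mul]
  · intro hp
    rw [hy]
    simp only
    apply sum_eq_zero
    intro r hr
    have hr' := mem_range.mp hr
    rw [getD_u u f v _ (by omega)]
    by_cases hc : u.getD (u.length - 1) default = G.inv (f.getD r default)
    · rw [h.H3 (u.length - 1) r (by omega) hr' hc, mul_zero]
    · rw [if_neg hc, zero_mul]

end Dat

end Pool.Agent.TH317.CC.H938
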