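import Pool.Agent.TH938.CC.Earlier

set_option autoImplicit false
set_option linter.unusedVariables false
set_option linter.unusedSectionVars false
set_option linter.unusedSimpArgs false

namespace Pool.Agent.TH317.CC.H938

open Finset Pool.Agent.TH317.CC

variable {D V Λ R : Type*} [LinearOrder Λ] [CommRing R] [Inhabited D]

namespace Dat

variable {G : Rib D V Λ} {Fc : Set (List D)} {Rl : ℕ → List D → Prop} {X g : List D → R}
    {n : ℕ} {e : D} {f u v : List D} {m : ℕ}

/-- coefficient of a corner with a later pass -/
def lkd (G : Rib D V Λ) (f v : List D) (r t : ℕ) : ℤ :=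
  lk (G.pos (G.inv (f.getD r default)), G.pos (f.getD ((r + 1) % f.length) default))
    (G.pos (G.inv (v.getD t default)), G.pos (v.getD (t + 1) default))

theorem cf_corner_d (h : Dat G Fc Rl X g n e f u v m) (t r : ℕ) (hr : r + 1 < f.length) :
    cf G.ipos G.pos (u ++ f ++ v) (u.length + (r + 1)) (u.length + f.length + (t + 1))
      = lkd G f v r t := by
  rw [cf_eq, prv_f u f v r (by omega), getD_f u f v (r + 1) hr, prv_v, getD_v]
  unfold lkd
  rw [Nat.mod_eq_of_lt hr, if_neg, add_zero]
  omega

theorem cf_three_d (h : Dat G Fc Rl X g n e f u v m) (t : ℕ) :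
    cf G.ipos G.pos (u ++ f ++ v) u.length (u.length + f.length + (t + 1))
      + cf G.ipos G.pos (u ++ f ++ v) (u.length + f.length) (u.length + f.length + (t + 1))
      - cf G.ipos G.pos (u ++ v) u.length (u.length + (t + 1)) = lkd G f v (f.length - 1) t := by
  classical
  have h3 := h.len3
  have hvl : 0 < v.length := by rw [h.hm]; omega
  have e1 : f.length = (f.length - 1) + 1 := by omega
  have a1 : prv (u ++ f ++ v) (u.length + f.length) = f.getD (f.length - 1) default := by
    have := prv_f u f v (f.length - 1) (by omega)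
    rwa [← e1] at this
  have a2 : (u ++ f ++ v).getD (u.length + f.length) default = v.getD 0 default := by
    have := getD_v u f v 0
    rwa [add_zero] at this
  have a3 : (u ++ f ++ v).getD u.length default = f.getD 0 default := by
    have := getD_f u f v 0 (by omega)
    rwa [add_zero] at this
  have a4 : (u ++ v).getD u.length default = v.getD 0 default := by
    have := getD_v' u v 0
    rwa [add_zero] at this
  rw [cf_eq, cf_eq, cf_eq, a1, a2, a3, a4, ← prv_u u f v hvl u.length le_rfl,
    ← prv_u u f v hvl 0 (by omega), h.prv0, prv_v, prv_v', getD_v, getD_v']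
  rw [if_neg (c := u.length + f.length = 0 ∧ e = v.getD t default) (by omega)]
  unfold lkd
  have e2 : (f.length - 1 + 1) % f.length = 0 := by rw [← e1, Nat.mod_self]
  rw [e2]
  have := lk_add_left (G.pos (G.inv (v.getD t default)), G.pos (v.getD (t + 1) default))
    (G.pos (G.inv (prv (u ++ f ++ v) u.length))) (G.pos (v.getD 0 default))
    (G.pos (f.getD 0 default)) (G.pos (G.inv (f.getD (f.length - 1) default)))
  rw [← this]
  ring

theorem lkd_zero (h : Dat G Fc Rl X g n e f u v m) (t : ℕ) (htm : t < m) (r : ℕ)
    (hr : r < f.length)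
    (ht : tV G f (r + 1) ≠ G.tl (v.getD (t + 1) default)) : lkd G f v r t = 0 := by
  unfold lkd
  have h1 := h.hd_v t htm
  have h2 := face_hd G f h.hF r hr
  apply lk_zero
  · rw [h2]; rfl
  · exact h1
  · rw [h1, h2]; exact ht

theorem Q_V0 (h : Dat G Fc Rl X g n e f u v m) (t : ℕ) (h1t : 1 ≤ t) (htm : t ≤ m)
    (ht : G.tl (v.getD t default) = tV G f 0) :
    X (f ++ v.take t) = X (v.take t) ∧ g (u ++ f ++ v.drop t) = g (u ++ v.drop t) := by
  have h3 := h.len3
  constructor
  · have hl := h.lleaf (u.length + 0) (u.length + f.length + t) (by omega) (by omega)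
      (by rw [h.tl_v, h.tl_f 0 (by omega), ht])
    rw [leaf_fv u f v 0 t (by omega), List.drop_zero] at hl
    have := h.Xface [] (v.take t) (by simpa using levmono h.hL 1 _ (by omega) _ hl)
    simpa using this
  · have hl := h.lrest (u.length + f.length) (u.length + f.length + t) (by omega) (by omega)
      (by rw [h.tl_v, h.tl_f f.length le_rfl, tV_len, ht])
    rw [rest_fv u f v f.length t le_rfl, List.take_length] at hl
    exact h.hgf _ _ (h.last_drop t htm) (levmono h.hL _ _ (by omega) _ hl)

theorem QQ_V0 (h : Dat G Fc Rl X g n e f u v m) (t : ℕ) (h1t : 1 ≤ t) (htm : t ≤ m)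
    (ht : G.tl (v.getD t default) = tV G f 0) :
    QQ X g u f v f.length t = QQ X g u f v 0 t := by
  obtain ⟨p1, p2⟩ := h.Q_V0 t h1t htm ht
  unfold QQ
  rw [List.take_zero, List.append_nil, List.drop_zero, p1,
    List.take_length, List.drop_length, List.nil_append, p2]

theorem HD1 (h : Dat G Fc Rl X g n e f u v m) (t : ℕ) (htm : t < m) :
    (∑ r ∈ range (f.length + 1),
      T G X g (u ++ f ++ v) (u.length + r) (u.length + f.length + (t + 1)))
      - T G X g (u ++ v) u.length (u.length + (t + 1)) =
    ∑ r ∈ range f.length, (lkd G f v r t : R) * QQ X g u f v (r + 1) (t + 1) := by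
  have h3 := h.len3
  obtain ⟨q, hq⟩ : ∃ q, f.length = q + 1 := ⟨f.length - 1, by omega⟩
  have hT : ∀ r ≤ f.length,
      T G X g (u ++ f ++ v) (u.length + r) (u.length + f.length + (t + 1)) =
      (cf G.ipos G.pos (u ++ f ++ v) (u.length + r) (u.length + f.length + (t + 1)) : R)
        * QQ X g u f v r (t + 1) := by
    intro r hr
    unfold T QQ
    rw [leaf_fv u f v r (t + 1) hr, rest_fv u f v r (t + 1) hr, mul_assoc]
  have e1 : ∑ r ∈ range (f.length + 1),
      T G X g (u ++ f ++ v) (u.length + r) (u.length + f.length + (t + 1)) =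
      (∑ r ∈ range q, (lkd G f v r t : R) * QQ X g u f v (r + 1) (t + 1))
      + T G X g (u ++ f ++ v) (u.length + 0) (u.length + f.length + (t + 1))
      + T G X g (u ++ f ++ v) (u.length + f.length) (u.length + f.length + (t + 1)) := by
    rw [sum_range_succ]
    congr 1
    have : range f.length = range (q + 1) := by rw [hq]
    rw [this, sum_range_succ']
    congr 1
    apply sum_congr rfl
    intro r hr
    have hr' := mem_range.mp hr
    rw [hT (r + 1) (by omega), h.cf_corner_d t r (by omega)]
  have e2 : T G X g (u ++ v) u.length (u.length + (t + 1)) =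
      (cf G.ipos G.pos (u ++ v) u.length (u.length + (t + 1)) : R)
        * (X (v.take (t + 1)) * g (u ++ v.drop (t + 1))) := by
    unfold T
    have a := leaf_uv' u v u.length (t + 1) le_rfl
    have b := rest_uv' u v u.length (t + 1) le_rfl
    simp only [List.drop_length, List.nil_append, List.take_length] at a b
    rw [a, b, mul_assoc]
  have e5 : ∑ r ∈ range f.length, (lkd G f v r t : R) * QQ X g u f v (r + 1) (t + 1) =
      (∑ r ∈ range q, (lkd G f v r t : R) * QQ X g u f v (r + 1) (t + 1)) +
        (lkd G f v q t : R) * QQ X g u f v f.length (t + 1) := by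
    have : range f.length = range (q + 1) := by rw [hq]
    rw [this, sum_range_succ, ← hq]
  rw [e1, e2, e5, hT 0 (by omega), hT f.length le_rfl]
  have e3 := h.cf_three_d t
  have e4 : f.length - 1 = q := by omega
  rw [e4] at e3
  rw [add_zero]
  by_cases ht : G.tl (v.getD (t + 1) default) = tV G f 0
  · obtain ⟨p1, p2⟩ := h.Q_V0 (t + 1) (by omega) (by omega) ht
    have P0 : QQ X g u f v 0 (t + 1) = X (v.take (t + 1)) * g (u ++ v.drop (t + 1)) := by
      unfold QQ
      rw [List.take_zero, List.append_nil, List.drop_zero, p1]
    have Pq : QQ X g u f v f.length (t + 1) =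
        X (v.take (t + 1)) * g (u ++ v.drop (t + 1)) := by
      unfold QQ
      rw [List.take_length, List.drop_length, List.nil_append, p2]
    rw [P0, Pq, ← e3]
    push_cast
    ring
  · have z1 : cf G.ipos G.pos (u ++ f ++ v) u.length (u.length + f.length + (t + 1)) = 0 := by
      apply h.T_zero _ _ (by omega) (by omega)
      have := h.tl_f 0 (by omega)
      rw [add_zero] at this
      rw [this, h.tl_v]; exact fun hh => ht hh.symm
    have z2 : cf G.ipos G.pos (u ++ f ++ v) (u.length + f.length)
        (u.length + f.length + (t + 1)) = 0 := by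
      apply h.T_zero _ _ (by omega) (by omega)
      rw [h.tl_f f.length le_rfl, tV_len, h.tl_v]; exact fun hh => ht hh.symm
    have z3 : lkd G f v q t = 0 := by
      apply h.lkd_zero t htm q (by omega)
      rw [← hq, tV_len]; exact fun hh => ht hh.symm
    have z4 : cf G.ipos G.pos (u ++ v) u.length (u.length + (t + 1)) = 0 := by
      rw [z1, z2, z3] at e3; linarith
    rw [z1, z2, z3, z4]
    simp

theorem Q1 (h : Dat G Fc Rl X g n e f u v m) (t r : ℕ) (ht : t < m + 1)
    (hr : r < f.length) (htr : v.getD t default = f.getD r default) :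
    QQ X g u f v r t = QQ X g u f v (r + 1) (t + 1) := by
  have hm := h.hm
  unfold QQ
  congr 1
  · rw [drop_getD f r hr, take_getD v t (by omega), htr, List.cons_append, h.hX.rot,
      List.append_assoc]
  · rw [drop_getD v t (by omega), take_getD f r hr, htr]; simp

theorem Q2 (h : Dat G Fc Rl X g n e f u v m) (t r : ℕ) (h1t : 1 ≤ t) (ht : t < m)
    (hr : r < f.length) (htr : v.getD t default = G.inv (f.getD r default)) :
    QQ X g u f v (r + 1) t = QQ X g u f v r (t + 1) := by
  have hm := h.hm
  have nef := h.ne_f r hr
  have t1 : G.tl (v.getD t default) = tV G f (r + 1) := by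
    rw [htr, face_hd G f h.hF r hr]
  have t2 : G.tl (v.getD (t + 1) default) = tV G f r := by
    have := h.hd_v t (by omega)
    rw [← this, htr, G.inv_inv, tV_lt G f r hr]
  unfold QQ
  congr 1
  · have hl := h.lleaf (u.length + r) (u.length + f.length + (t + 1)) (by omega) (by omega)
      (by rw [h.tl_f r hr.le, h.tl_v, t2])
    rw [leaf_fv u f v r (t + 1) hr.le] at hl
    rw [drop_getD f r hr, take_getD v t (by omega), htr, List.cons_append] at hl ⊢
    rw [h.hX.rot]
    have hl2 := h.hL.rot _ _ _ hl
    have e1 : f.drop (r + 1) ++ (v.take t ++ [G.inv (f.getD r default)]) ++ [f.getD r default]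
        = (f.drop (r + 1) ++ v.take t) ++
          [G.inv (f.getD r default), G.inv (G.inv (f.getD r default))] ++ [] := by
      rw [G.inv_inv]; simp
    rw [e1] at hl2 ⊢
    rw [h.Xspur _ _ _ (levmono h.hL _ _ (by omega) _ hl2), List.append_nil]
  · have hl := h.lrest (u.length + (r + 1)) (u.length + f.length + t) (by omega) (by omega)
      (by rw [h.tl_f (r + 1) (by omega), h.tl_v, t1])
    rw [rest_fv u f v (r + 1) t (by omega)] at hl
    have e1 : u ++ f.take (r + 1) ++ v.drop t =
        (u ++ f.take r) ++ [f.getD r default, G.inv (f.getD r default)] ++ v.drop (t + 1) := by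
      rw [take_getD f r hr, drop_getD v t (by omega), htr]; simp
    rw [e1] at hl ⊢
    rw [h.hgs _ _ _ (h.last_drop (t + 1) (by omega)) nef.1 nef.2
      (levmono h.hL _ _ (by omega) _ hl)]

theorem Xf (h : Dat G Fc Rl X g n e f u v m) : X f = 0 := by
  have h3 := h.len3
  have hl := h.lleaf (u.length + 0) (u.length + f.length) (by omega) (by omega)
    (by rw [h.tl_f 0 (by omega), h.tl_f f.length le_rfl, tV_len])
  rw [leaf_ff _ _ _ _ _ le_rfl, List.drop_zero, List.take_length] at hl
  have := h.Xface [] [] (by simpa using levmono h.hL 1 _ (by omega) _ hl)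
  simp only [List.nil_append, List.append_nil] at this
  rw [this, h.hX.nil]

theorem Q3 (h : Dat G Fc Rl X g n e f u v m) (r : ℕ)
    (hr : r < f.length) (htr : v.getD 0 default = f.getD r default) :
    QQ X g u f v (r + 1) 1 = 0 := by
  have h3 := h.len3
  have r0 : r = 0 := by
    apply tV_inj G f h.hF r 0 hr (by omega)
    rw [tV_lt G f r hr, ← htr, h.tl_v0]
  subst r0
  rw [← h.Q1 0 0 (by omega) hr htr]
  unfold QQ
  rw [List.take_zero, List.drop_zero, List.append_nil, h.Xf, zero_mul]

theorem Q4 (h : Dat G Fc Rl X g n e f u v m) (hm0 : 0 < m) (s : ℕ)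
    (hs : s < f.length) (htr : v.getD 0 default = G.inv (f.getD s default)) :
    s + 1 = f.length ∧ QQ X g u f v s 1 = 0 := by
  have h3 := h.len3
  have hm := h.hm
  have s0 : s + 1 = f.length := by
    by_contra hne
    have : tV G f (s + 1) = tV G f 0 := by
      rw [← face_hd G f h.hF s hs, ← htr, h.tl_v0]
    have := tV_inj G f h.hF (s + 1) 0 (by omega) (by omega) this
    omega
  refine ⟨s0, ?_⟩
  have t2 : G.tl (v.getD 1 default) = tV G f s := by
    have := h.hd_v 0 hm0
    rw [← this, htr, G.inv_inv, tV_lt G f s hs]
  have hl := h.lleaf (u.length + s) (u.length + f.length + 1) (by omega) (by omega)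
      (by rw [h.tl_f s hs.le, h.tl_v, t2])
  rw [leaf_fv u f v s 1 hs.le] at hl
  have e1 : f.drop s ++ v.take 1 = [] ++ [f.getD s default, G.inv (f.getD s default)] ++ [] := by
    rw [drop_getD f s hs, List.drop_of_length_le (by omega), take_getD v 0 (by omega), htr]
    simp
  unfold QQ
  rw [e1] at hl ⊢
  rw [h.Xspur _ _ _ (levmono h.hL _ _ (by omega) _ hl), List.append_nil, h.hX.nil, zero_mul]

theorem HD (h : Dat G Fc Rl X g n e f u v m) :
    ∑ t ∈ range m, ∑ r ∈ range (f.length + 1),
        T G X g (u ++ f ++ v) (u.length + r) (u.length + f.length + (t + 1)) =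
      ∑ t ∈ range m, T G X g (u ++ v) (u.length) (u.length + (t + 1)) := by
  classical
  have h3 := h.len3
  rw [← sub_eq_zero, ← sum_sub_distrib]
  set x1 : ℕ → R := fun t => ∑ r ∈ range f.length,
    (if v.getD t default = f.getD ((r + 1) % f.length) default then (1 : R) else 0)
      * QQ X g u f v (r + 1) t with hx1
  set y1 : ℕ → R := fun t => ∑ r ∈ range f.length,
    (if G.inv (v.getD t default) = G.inv (f.getD r default) then (1 : R) else 0)
      * QQ X g u f v (r + 1) (t + 1) with hy1
  set x2 : ℕ → R := fun t => ∑ r ∈ range f.length,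
    (if v.getD t default = G.inv (f.getD r default) then (1 : R) else 0)
      * QQ X g u f v (r + 1) t with hx2
  set y2 : ℕ → R := fun t => ∑ r ∈ range f.length,
    (if G.inv (v.getD t default) = f.getD ((r + 1) % f.length) default then (1 : R) else 0)
      * QQ X g u f v (r + 1) (t + 1) with hy2
  have e1 : ∀ t ∈ range m, (∑ r ∈ range (f.length + 1),
      T G X g (u ++ f ++ v) (u.length + r) (u.length + f.length + (t + 1)))
      - T G X g (u ++ v) u.length (u.length + (t + 1)) =
      (x1 (t + 1) - y1 t) + (x2 (t + 1) - y2 t) := by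
    intro t ht
    have ht' := mem_range.mp ht
    rw [h.HD1 t ht', hx1, hy1, hx2, hy2]
    simp only
    rw [← sum_sub_distrib, ← sum_sub_distrib, ← sum_add_distrib]
    apply sum_congr rfl
    intro r hr
    have hr' := mem_range.mp hr
    unfold lkd
    rw [corner_right G (f.getD r default) (f.getD ((r + 1) % f.length) default)
      (G.inv (v.getD t default)) (v.getD (t + 1) default)
      (face_hd G f h.hF r hr') (face_cor G f h.hF r hr') (h.hd_v t ht')]
    push_cast
    ring
  rw [sum_congr rfl e1, sum_add_distrib]
  have hswap : ∀ a b : D, G.inv a = G.inv b ↔ a = b := by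
    intro a b
    constructor
    · intro hh; rw [← G.inv_inv a, hh, G.inv_inv]
    · intro hh; rw [hh]
  have hswap2 : ∀ a b : D, G.inv a = b ↔ a = G.inv b := by
    intro a b
    constructor
    · intro hh; rw [← hh, G.inv_inv]
    · intro hh; rw [hh, G.inv_inv]
  obtain ⟨q, hq⟩ : ∃ q, f.length = q + 1 := ⟨f.length - 1, by omega⟩
  have hrange : range f.length = range (q + 1) := by rw [hq]
  have s1 : ∑ t ∈ range m, (x1 (t + 1) - y1 t) = 0 := by
    apply tele_d
    · intro hm0
      rw [hy1]
      simp only
      apply sum_eq_zero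
      intro r hr
      have hr' := mem_range.mp hr
      by_cases hc : v.getD 0 default = f.getD r default
      · rw [zero_add, h.Q3 r hr' hc, mul_zero]
      · rw [if_neg (by rw [hswap]; exact hc), zero_mul]
    · intro t h1t htm
      have ey : ∀ s < f.length,
          (if G.inv (v.getD t default) = G.inv (f.getD s default) then (1 : R) else 0)
            * QQ X g u f v (s + 1) (t + 1) =
          (if v.getD t default = f.getD s default then (1 : R) else 0)
            * QQ X g u f v s t := by
        intro s hs
        by_cases hc : v.getD t default = f.getD s default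
        · rw [if_pos (by rw [hc]), if_pos hc, h.Q1 t s (by omega) hs hc]
        · rw [if_neg (by rw [hswap]; exact hc), if_neg hc, zero_mul, zero_mul]
      rw [hx1, hy1]
      simp only
      have ey2 : ∑ r ∈ range f.length,
          (if G.inv (v.getD t default) = G.inv (f.getD r default) then (1 : R) else 0)
            * QQ X g u f v (r + 1) (t + 1) =
          ∑ r ∈ range f.length, (if v.getD t default = f.getD r default then (1 : R) else 0)
            * QQ X g u f v r t := sum_congr rfl fun s hs => ey s (mem_range.mp hs)
      rw [ey2, hrange, sum_range_succ, sum_range_succ' _ q, ← hq]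
      congr 1
      · apply sum_congr rfl
        intro r hr
        have hr' := mem_range.mp hr
        rw [Nat.mod_eq_of_lt (by omega)]
      · rw [Nat.mod_self]
        by_cases hc : v.getD t default = f.getD 0 default
        · rw [h.QQ_V0 t h1t htm.le]
          rw [hc, tV_lt G f 0 (by omega)]
        · rw [if_neg hc, zero_mul, zero_mul]
    · intro hm0
      rw [hx1]
      simp only
      apply sum_eq_zero
      intro r hr
      rw [h.getLast, if_neg (h.ne_f _ (Nat.mod_lt _ (by omega))).1, zero_mul]
  have s2 : ∑ t ∈ range m, (x2 (t + 1) - y2 t) = 0 := by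
    apply tele_d
    · intro hm0
      rw [hy2]
      simp only
      apply sum_eq_zero
      intro r hr
      have hr' := mem_range.mp hr
      by_cases hc : G.inv (v.getD 0 default) = f.getD ((r + 1) % f.length) default
      · obtain ⟨p1, p2⟩ := h.Q4 hm0 ((r + 1) % f.length) (Nat.mod_lt _ (by omega))
          ((hswap2 _ _).mp hc)
        have e5 : (r + 1) % f.length = r + 1 := by
          rcases Nat.lt_or_ge (r + 1) f.length with h1 | h1
          · exact Nat.mod_eq_of_lt h1
          · have : r + 1 = f.length := by omega
            rw [this, Nat.mod_self] at p1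
            omega
        rw [e5] at p2
        rw [zero_add, p2, mul_zero]
      · rw [if_neg hc, zero_mul]
    · intro t h1t htm
      have ey : ∀ s < f.length,
          (if v.getD t default = G.inv (f.getD s default) then (1 : R) else 0)
            * QQ X g u f v (s + 1) t =
          (if G.inv (v.getD t default) = f.getD s default then (1 : R) else 0)
            * QQ X g u f v s (t + 1) := by
        intro s hs
        by_cases hc : v.getD t default = G.inv (f.getD s default)
        · rw [if_pos hc, if_pos ((hswap2 _ _).mpr hc), h.Q2 t s h1t htm hs hc]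
        · rw [if_neg hc, if_neg (by rw [hswap2]; exact hc), zero_mul, zero_mul]
      rw [hx2, hy2]
      simp only
      have ey2 : ∑ r ∈ range f.length,
          (if v.getD t default = G.inv (f.getD r default) then (1 : R) else 0)
            * QQ X g u f v (r + 1) t =
          ∑ r ∈ range f.length, (if G.inv (v.getD t default) = f.getD r default then (1 : R) else 0)
            * QQ X g u f v r (t + 1) := sum_congr rfl fun s hs => ey s (mem_range.mp hs)
      rw [ey2, hrange, sum_range_succ' _ q, sum_range_succ _ q, ← hq]
      congr 1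
      · apply sum_congr rfl
        intro r hr
        have hr' := mem_range.mp hr
        rw [Nat.mod_eq_of_lt (by omega)]
      · rw [Nat.mod_self]
        by_cases hc : G.inv (v.getD t default) = f.getD 0 default
        · rw [h.QQ_V0 (t + 1) (by omega) (by omega)]
          rw [← h.hd_v t htm, hc, tV_lt G f 0 (by omega)]
        · rw [if_neg hc, zero_mul, zero_mul]
    · intro hm0
      rw [hx2]
      simp only
      apply sum_eq_zero
      intro r hr
      rw [h.getLast, if_neg (h.ne_f _ (mem_range.mp hr)).2, zero_mul]
  rw [s1, s2, add_zero]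

/-- the induction step -/
theorem step (h : Dat G Fc Rl X g n e f u v m) :
    L G.ipos G.pos X g (u ++ f ++ v) = L G.ipos G.pos X g (u ++ v) :=
  L_ins G X g u f v m h.hm h.HA h.HC h.HB h.HA2 h.HD h.HA1

end Dat

end Pool.Agent.TH317.CC.H938
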