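import Pool.Agent.TH938.CC.Base

set_option autoImplicit false
set_option linter.unusedVariables false
set_option linter.unusedSectionVars false
set_option linter.unusedSimpArgs false

namespace Pool.Agent.TH317.CC.H938

open Finset Pool.Agent.TH317.CC

variable {D : Type*} [Inhabited D]

section
variable (u f v : List D)

theorem getD_u (j : ℕ) (hj : j < u.length) :
    (u ++ f ++ v).getD j default = u.getD j default := by
  rw [List.append_assoc, List.getD_append _ _ _ _ hj]

theorem getD_f (r : ℕ) (hr : r < f.length) :
    (u ++ f ++ v).getD (u.length + r) default = f.getD r default := by
  rw [List.append_assoc, List.getD_append_right _ _ _ _ (by omega), List.getD_append _ _ _ _ (by omega)]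
  congr 1; omega

theorem getD_v (t : ℕ) :
    (u ++ f ++ v).getD (u.length + f.length + t) default = v.getD t default := by
  rw [List.getD_append_right _ _ _ _ (by simp)]
  congr 1; simp

theorem getD_u' (j : ℕ) (hj : j < u.length) :
    (u ++ v).getD j default = u.getD j default := by
  rw [List.getD_append _ _ _ _ hj]

theorem getD_v' (t : ℕ) :
    (u ++ v).getD (u.length + t) default = v.getD t default := by
  rw [List.getD_append_right _ _ _ _ (by omega)]
  congr 1; omega

theorem leaf_uu (j k : ℕ) (hk : k ≤ u.length) :
    leaf (u ++ f ++ v) j k = (u.take k).drop j := by
  have e : k - u.length = 0 := by omega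
  simp [leaf, List.take_append, List.append_assoc, e]

theorem rest_uu (j k : ℕ) (hj : j ≤ k) (hk : k ≤ u.length) :
    rest (u ++ f ++ v) j k = (u.take j ++ u.drop k) ++ f ++ v := by
  have e : k - u.length = 0 := by omega
  have e' : j - u.length = 0 := by omega
  simp [rest, List.take_append, List.drop_append, List.append_assoc, e, e']

theorem leaf_uu' (j k : ℕ) (hk : k ≤ u.length) :
    leaf (u ++ v) j k = (u.take k).drop j := by
  have e : k - u.length = 0 := by omega
  simp [leaf, List.take_append, e]

theorem rest_uu' (j k : ℕ) (hj : j ≤ k) (hk : k ≤ u.length) :
    rest (u ++ v) j k = (u.take j ++ u.drop k) ++ v := by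
  have e : k - u.length = 0 := by omega
  have e' : j - u.length = 0 := by omega
  simp [rest, List.take_append, List.drop_append, List.append_assoc, e, e']

theorem leaf_uf (j r : ℕ) (hj : j ≤ u.length) (hr : r ≤ f.length) :
    leaf (u ++ f ++ v) j (u.length + r) = u.drop j ++ f.take r := by
  have e : r - f.length = 0 := by omega
  have e' : j - u.length = 0 := by omega
  simp [leaf, List.take_append, List.drop_append, List.append_assoc, e, e',
    List.take_of_length_le]

theorem rest_uf (j r : ℕ) (hj : j ≤ u.length) (hr : r ≤ f.length) :
    rest (u ++ f ++ v) j (u.length + r) = u.take j ++ f.drop r ++ v := by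
  have e : r - f.length = 0 := by omega
  have e' : j - u.length = 0 := by omega
  simp [rest, List.take_append, List.drop_append, List.append_assoc, e, e',
    List.drop_of_length_le]

theorem leaf_uv (j t : ℕ) (hj : j ≤ u.length) :
    leaf (u ++ f ++ v) j (u.length + f.length + t) = u.drop j ++ f ++ v.take t := by
  have e' : j - u.length = 0 := by omega
  have e2 : u.length + f.length + t - u.length = f.length + t := by omega
  simp [leaf, List.take_append, List.drop_append, List.append_assoc, e', e2,
    List.take_of_length_le (show u.length ≤ u.length + f.length + t by omega)]

theorem rest_uv (j t : ℕ) (hj : j ≤ u.length) :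
    rest (u ++ f ++ v) j (u.length + f.length + t) = u.take j ++ v.drop t := by
  have e' : j - u.length = 0 := by omega
  have e2 : u.length + f.length + t - u.length = f.length + t := by omega
  simp [rest, List.take_append, List.drop_append, List.append_assoc, e', e2,
    List.drop_of_length_le (show u.length ≤ u.length + f.length + t by omega)]

theorem leaf_uv' (j t : ℕ) (hj : j ≤ u.length) :
    leaf (u ++ v) j (u.length + t) = u.drop j ++ v.take t := by
  have e' : j - u.length = 0 := by omega
  simp [leaf, List.take_append, List.drop_append, List.append_assoc, e',
    List.take_of_length_le (show u.length ≤ u.length + t by omega)]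

theorem rest_uv' (j t : ℕ) (hj : j ≤ u.length) :
    rest (u ++ v) j (u.length + t) = u.take j ++ v.drop t := by
  have e' : j - u.length = 0 := by omega
  simp [rest, List.take_append, List.drop_append, List.append_assoc, e']

theorem leaf_ff (r' r : ℕ) (hr : r ≤ f.length) :
    leaf (u ++ f ++ v) (u.length + r') (u.length + r) = (f.take r).drop r' := by
  have e : r - f.length = 0 := by omega
  simp [leaf, List.take_append, List.drop_append, List.append_assoc, e,
    List.take_of_length_le, List.drop_of_length_le]

theorem leaf_fv (r t : ℕ) (hr : r ≤ f.length) :
    leaf (u ++ f ++ v) (u.length + r) (u.length + f.length + t) = f.drop r ++ v.take t := by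
  have e : r - f.length = 0 := by omega
  have e2 : u.length + f.length + t - u.length = f.length + t := by omega
  simp [leaf, List.take_append, List.drop_append, List.append_assoc, e, e2,
    List.take_of_length_le (show u.length ≤ u.length + f.length + t by omega),
    List.take_of_length_le (show f.length ≤ f.length + t by omega),
    List.drop_of_length_le (show u.length ≤ u.length + r by omega)]

theorem rest_fv (r t : ℕ) (hr : r ≤ f.length) :
    rest (u ++ f ++ v) (u.length + r) (u.length + f.length + t) = u ++ f.take r ++ v.drop t := by
  have e : r - f.length = 0 := by omega
  have e2 : u.length + f.length + t - u.length = f.length + t := by omega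
  simp [rest, List.take_append, List.drop_append, List.append_assoc, e, e2,
    List.take_of_length_le (show u.length ≤ u.length + r by omega),
    List.drop_of_length_le (show u.length ≤ u.length + f.length + t by omega)]

theorem leaf_vv (s t : ℕ) :
    leaf (u ++ f ++ v) (u.length + f.length + s) (u.length + f.length + t)
      = (v.take t).drop s := by
  have e2 : ∀ t, u.length + f.length + t - u.length = f.length + t := by intro t; omega
  simp [leaf, List.take_append, List.drop_append, List.append_assoc, e2,
    List.take_of_length_le (show u.length ≤ u.length + f.length + t by omega),
    List.drop_of_length_le (show u.length ≤ u.length + f.length + s by omega)]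

theorem rest_vv (s t : ℕ) :
    rest (u ++ f ++ v) (u.length + f.length + s) (u.length + f.length + t)
      = u ++ f ++ (v.take s ++ v.drop t) := by
  have e2 : ∀ t, u.length + f.length + t - u.length = f.length + t := by intro t; omega
  simp [rest, List.take_append, List.drop_append, List.append_assoc, e2,
    List.take_of_length_le (show u.length ≤ u.length + f.length + s by omega),
    List.take_of_length_le (show f.length ≤ f.length + s by omega),
    List.drop_of_length_le (show f.length ≤ f.length + t by omega),
    List.drop_of_length_le (show u.length ≤ u.length + f.length + t by omega)]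

theorem leaf_vv' (s t : ℕ) :
    leaf (u ++ v) (u.length + s) (u.length + t) = (v.take t).drop s := by
  simp [leaf, List.take_append, List.drop_append, List.take_of_length_le, List.drop_of_length_le]

theorem rest_vv' (s t : ℕ) :
    rest (u ++ v) (u.length + s) (u.length + t) = u ++ (v.take s ++ v.drop t) := by
  simp [rest, List.take_append, List.drop_append, List.take_of_length_le, List.drop_of_length_le]

end

end Pool.Agent.TH317.CC.H938
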